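import Pool.Agent.BP.Glue

/-!
# The Bates–Peschke form on `ℝ⁴` and self-immersions

The Bates–Peschke symplectic form `ω` on the shell `U_ε` around the 3-sphere
`{r₁² + r₂² = π}` admits a smooth immersion into the standard symplectic `ℝ⁴`
pulling the standard form back to `ω`.
-/

set_option autoImplicit false

open Set
open scoped ContDiff

namespace Pool.Agent.Results.MP_966fbb_gt.SymplecticImmersion

/-- `ℝ⁴` with coordinates `(x₁, y₁, x₂, y₂) = (p 0, p 1, p 2, p 3)`. -/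
abbrev R4 : Type := Fin 4 → ℝ

/-- `r₁ = √(x₁² + y₁²)` -/
noncomputable def r1 (p : R4) : ℝ := Real.sqrt (p 0 ^ 2 + p 1 ^ 2)

/-- `r₂ = √(x₂² + y₂²)` -/
noncomputable def r2 (p : R4) : ℝ := Real.sqrt (p 2 ^ 2 + p 3 ^ 2)

/-- the one-form `α₁ = x₁ dy₁ - y₁ dx₁`, evaluated at the point `p` on the vector `v` -/
def alpha1 (p v : R4) : ℝ := p 0 * v 1 - p 1 * v 0

/-- the one-form `α₂ = x₂ dy₂ - y₂ dx₂`, evaluated at the point `p` on the vector `v` -/
def alpha2 (p v : R4) : ℝ := p 2 * v 3 - p 3 * v 2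

/-- `a(t) = 2 cos(t²) - 2 t² sin(t²)` -/
noncomputable def a (t : ℝ) : ℝ := 2 * Real.cos (t ^ 2) - 2 * t ^ 2 * Real.sin (t ^ 2)

/-- `f = r₁² + r₂² - π` -/
noncomputable def f (p : R4) : ℝ := r1 p ^ 2 + r2 p ^ 2 - Real.pi

/-- the one-form `σ = cos(r₁²) α₁ + cos(r₂²) α₂` -/
noncomputable def sigma (p v : R4) : ℝ :=
  Real.cos (r1 p ^ 2) * alpha1 p v + Real.cos (r2 p ^ 2) * alpha2 p v

/-- the one-form `μ = a(r₂) α₁ + a(r₁) α₂` -/
noncomputable def mu (p v : R4) : ℝ := a (r2 p) * alpha1 p v + a (r1 p) * alpha2 p v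

/-- the one-form `λ = σ + f μ` -/
noncomputable def lam (p v : R4) : ℝ := sigma p v + f p * mu p v

/-- the exterior derivative of a one-form `θ` on `ℝ⁴`:
`dθ(u,v) = D_u(θ(v)) - D_v(θ(u))` for constant vector fields `u, v` -/
noncomputable def extD (θ : R4 → R4 → ℝ) (p u v : R4) : ℝ :=
  fderiv ℝ (fun q => θ q v) p u - fderiv ℝ (fun q => θ q u) p v

/-- the Bates–Peschke two-form `ω = -dλ` -/
noncomputable def omega (p u v : R4) : ℝ := -extD lam p u v

/-- the standard form `ω₀ = dx₁ ∧ dy₁ + dx₂ ∧ dy₂` -/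
def omega0 (u v : R4) : ℝ := (u 0 * v 1 - u 1 * v 0) + (u 2 * v 3 - u 3 * v 2)

/-- the two-form `ω` is nondegenerate at every point of `W` -/
def NondegenerateOn (W : Set R4) : Prop :=
  ∀ p ∈ W, ∀ u : R4, (∀ v : R4, omega p u v = 0) → u = 0

/-- the shell `U_ε = {|f| < ε}` -/
def shell (ε : ℝ) : Set R4 := {p | |f p| < ε}

/-- the sphere `S³ = {r₁² + r₂² = π}` -/
def sphere3 : Set R4 := {p | r1 p ^ 2 + r2 p ^ 2 = Real.pi}

/-- the torus `L = {r₁ = r₂ = √(π/2)}` -/
def torusL : Set R4 := {p | r1 p = Real.sqrt (Real.pi / 2) ∧ r2 p = Real.sqrt (Real.pi / 2)}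

/-- `V`, the shell `U_ε` minus the radial segment through `x` -/
def V (ε : ℝ) (x : R4) : Set R4 := {p | p ∈ shell ε ∧ ¬ ∃ t : ℝ, 0 < t ∧ p = t • x}

/-- `ψ` restricts to a smooth immersion `W → ℝ⁴` with `ψ^* ω₀ = ω` -/
def IsSymplecticImmersionOn (ψ : R4 → R4) (W : Set R4) : Prop :=
  ContDiffOn ℝ ∞ ψ W ∧
  (∀ p ∈ W, Function.Injective (fderiv ℝ ψ p)) ∧
  ∀ p ∈ W, ∀ u v : R4, omega0 (fderiv ℝ ψ p u) (fderiv ℝ ψ p v) = omega p u v

/-! ### Proof -/

open Pool.Agent.BP

/-- first pair of coordinates -/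
noncomputable def Z1 : R4 →L[ℝ] ℝ × ℝ :=
  (ContinuousLinearMap.proj 0).prod (ContinuousLinearMap.proj 1)

/-- second pair of coordinates -/
noncomputable def Z2 : R4 →L[ℝ] ℝ × ℝ :=
  (ContinuousLinearMap.proj 2).prod (ContinuousLinearMap.proj 3)

lemma Z1_apply (p : R4) : Z1 p = (p 0, p 1) := rfl
lemma Z2_apply (p : R4) : Z2 p = (p 2, p 3) := rfl

noncomputable def g1 (p : R4) : ℝ := gg (nsq Z1 p) (nsq Z2 p)
noncomputable def g2 (p : R4) : ℝ := gg (nsq Z2 p) (nsq Z1 p)

lemma r1_sq (p : R4) : r1 p ^ 2 = nsq Z1 p := by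
  unfold r1 nsq
  rw [Real.sq_sqrt (by positivity)]
  rfl

lemma r2_sq (p : R4) : r2 p ^ 2 = nsq Z2 p := by
  unfold r2 nsq
  rw [Real.sq_sqrt (by positivity)]
  rfl

lemma f_eq (p : R4) : f p = nsq Z1 p + nsq Z2 p - Real.pi := by
  unfold f; rw [r1_sq, r2_sq]

lemma lam_eq (p v : R4) :
    lam p v = g1 p * det2 (Z1 p) (Z1 v) + g2 p * det2 (Z2 p) (Z2 v) := by
  unfold lam sigma mu a g1 g2 gg bb
  rw [f_eq, r1_sq, r2_sq]
  unfold alpha1 alpha2 det2
  simp only [Z1_apply, Z2_apply]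
  ring

lemma g_contDiff (Z Z' : R4 →L[ℝ] ℝ × ℝ) :
    ContDiff ℝ ∞ (fun q => gg (nsq Z q) (nsq Z' q)) :=
  ContDiff.comp (g := fun x : ℝ × ℝ => gg x.1 x.2) (f := fun q => (nsq Z q, nsq Z' q))
    gg_contDiff ((nsq_contDiff Z).prodMk (nsq_contDiff Z'))

lemma g1_contDiff : ContDiff ℝ ∞ g1 := g_contDiff Z1 Z2

lemma g2_contDiff : ContDiff ℝ ∞ g2 := g_contDiff Z2 Z1

lemma det_hasFDerivAt (Z : R4 →L[ℝ] ℝ × ℝ) (p v : R4) : ∃ D : R4 →L[ℝ] ℝ,
    HasFDerivAt (fun q => det2 (Z q) (Z v)) D p ∧ ∀ u, D u = det2 (Z u) (Z v) := by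
  have h1 : HasFDerivAt (fun q => (Z q).1) ((ContinuousLinearMap.fst ℝ ℝ ℝ).comp Z) p :=
    hasFDerivAt_fst.comp p Z.hasFDerivAt
  have h2 : HasFDerivAt (fun q => (Z q).2) ((ContinuousLinearMap.snd ℝ ℝ ℝ).comp Z) p :=
    hasFDerivAt_snd.comp p Z.hasFDerivAt
  have h := (h1.mul_const (Z v).2).sub (h2.mul_const (Z v).1)
  refine ⟨_, h, ?_⟩
  intro u
  unfold det2
  simp
  ring

lemma fderiv_lam (p u v : R4) : fderiv ℝ (fun q => lam q v) p u =
    (fderiv ℝ g1 p u * det2 (Z1 p) (Z1 v) + g1 p * det2 (Z1 u) (Z1 v)) +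
    (fderiv ℝ g2 p u * det2 (Z2 p) (Z2 v) + g2 p * det2 (Z2 u) (Z2 v)) := by
  have hl : (fun q => lam q v) = fun q => g1 q * det2 (Z1 q) (Z1 v)
      + g2 q * det2 (Z2 q) (Z2 v) := by
    funext q; exact lam_eq q v
  rw [hl]
  obtain ⟨D1, hD1, hD1u⟩ := det_hasFDerivAt Z1 p v
  obtain ⟨D2, hD2, hD2u⟩ := det_hasFDerivAt Z2 p v
  have hg1 : HasFDerivAt g1 (fderiv ℝ g1 p) p :=
    (g1_contDiff.differentiable (by simp)).differentiableAt.hasFDerivAt
  have hg2 : HasFDerivAt g2 (fderiv ℝ g2 p) p :=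
    (g2_contDiff.differentiable (by simp)).differentiableAt.hasFDerivAt
  have h : HasFDerivAt (fun q => g1 q * det2 (Z1 q) (Z1 v)
      + g2 q * det2 (Z2 q) (Z2 v)) _ p := (hg1.mul hD1).add (hg2.mul hD2)
  rw [h.fderiv]
  simp only [add_apply, smul_apply, smul_eq_mul, hD1u, hD2u]
  ring

lemma det2_swap (u v : ℝ × ℝ) : det2 v u = -det2 u v := by
  unfold det2; ring

lemma omega_eq (p u v : R4) : omega p u v = -(dform Z1 g1 p u v + dform Z2 g2 p u v) := by
  unfold omega extD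
  rw [fderiv_lam, fderiv_lam, det2_swap (Z1 u) (Z1 v), det2_swap (Z2 u) (Z2 v)]
  unfold dform
  ring

lemma nsq_fderiv (Z : R4 →L[ℝ] ℝ × ℝ) (p : R4) : ∃ D : R4 →L[ℝ] ℝ,
    HasFDerivAt (nsq Z) D p ∧ ∀ w, D w = 2 * ((Z p).1 * (Z w).1 + (Z p).2 * (Z w).2) := by
  have h1 : HasFDerivAt (fun q => (Z q).1) ((ContinuousLinearMap.fst ℝ ℝ ℝ).comp Z) p :=
    hasFDerivAt_fst.comp p Z.hasFDerivAt
  have h2 : HasFDerivAt (fun q => (Z q).2) ((ContinuousLinearMap.snd ℝ ℝ ℝ).comp Z) p :=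
    hasFDerivAt_snd.comp p Z.hasFDerivAt
  have h3 : HasFDerivAt (nsq Z) _ p := (h1.pow 2).add (h2.pow 2)
  refine ⟨_, h3, ?_⟩
  intro w
  simp
  ring

/-- the two first derivatives of `gg` -/
noncomputable def ggs (s t : ℝ) : ℝ := -Real.sin s + bb t
noncomputable def ggt (s t : ℝ) : ℝ :=
  bb t + (s + t - Real.pi) * (-4 * Real.sin t - 2 * t * Real.cos t)

lemma g_fderiv (Z Z' : R4 →L[ℝ] ℝ × ℝ) (p w : R4) :
    fderiv ℝ (fun q => gg (nsq Z q) (nsq Z' q)) p w =
      ggs (nsq Z p) (nsq Z' p) * (2 * ((Z p).1 * (Z w).1 + (Z p).2 * (Z w).2)) +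
      ggt (nsq Z p) (nsq Z' p) * (2 * ((Z' p).1 * (Z' w).1 + (Z' p).2 * (Z' w).2)) := by
  obtain ⟨D1, hD1, hD1u⟩ := nsq_fderiv Z p
  obtain ⟨D2, hD2, hD2u⟩ := nsq_fderiv Z' p
  obtain ⟨D, hD, hDu⟩ := gg_hasFDerivAt (nsq Z p, nsq Z' p)
  have hin : HasFDerivAt (fun q => (nsq Z q, nsq Z' q)) (D1.prod D2) p := hD1.prodMk hD2
  have h : HasFDerivAt (fun q => gg (nsq Z q) (nsq Z' q)) (D.comp (D1.prod D2)) p :=
    HasFDerivAt.comp (g := fun x : ℝ × ℝ => gg x.1 x.2) (f := fun q => (nsq Z q, nsq Z' q))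
      p hD hin
  rw [h.fderiv]
  simp only [ContinuousLinearMap.comp_apply, ContinuousLinearMap.prod_apply, hDu, hD1u, hD2u]
  unfold ggs ggt
  ring

/-- nondegeneracy on the shell bounds its width -/
lemma width_le {ε : ℝ} (hnd : NondegenerateOn (shell ε)) : ε ≤ Real.pi / 3 := by
  by_contra hcon
  push Not at hcon
  obtain ⟨t, ⟨ht1, ht2⟩, hK⟩ := exists_KK_zero
  have hpi := Real.pi_gt_three
  have ht0 : 0 < t := by linarith
  set r := Real.sqrt t with hr
  have hr0 : 0 < r := Real.sqrt_pos.mpr ht0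
  have hr2 : r ^ 2 = t := Real.sq_sqrt ht0.le
  let p : R4 := ![r, 0, r, 0]
  let u : R4 := ![0, r, 0, r]
  have hZ1p : Z1 p = (r, 0) := rfl
  have hZ2p : Z2 p = (r, 0) := rfl
  have hZ1u : Z1 u = (0, r) := rfl
  have hZ2u : Z2 u = (0, r) := rfl
  have hn1 : nsq Z1 p = t := by unfold nsq; rw [hZ1p]; simp [hr2]
  have hn2 : nsq Z2 p = t := by unfold nsq; rw [hZ2p]; simp [hr2]
  have hp : p ∈ shell ε := by
    show |f p| < ε
    rw [f_eq, hn1, hn2, abs_lt]
    constructor <;> linarith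
  have hu : u = 0 := by
    apply hnd p hp u
    intro v
    rw [omega_eq]
    unfold dform
    have e1 : fderiv ℝ g1 p = fderiv ℝ (fun q => gg (nsq Z1 q) (nsq Z2 q)) p := rfl
    have e2 : fderiv ℝ g2 p = fderiv ℝ (fun q => gg (nsq Z2 q) (nsq Z1 q)) p := rfl
    rw [e1, e2, g_fderiv, g_fderiv, g_fderiv, g_fderiv]
    have h1 : g1 p = gg t t := by unfold g1; rw [hn1, hn2]
    have h2 : g2 p = gg t t := by unfold g2; rw [hn1, hn2]
    rw [h1, h2, hn1, hn2, hZ1p, hZ2p, hZ1u, hZ2u]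
    unfold det2
    simp only
    have hK' : gg t t + t * (ggs t t + ggt t t) = 0 := hK
    linear_combination (2 * r * ((Z1 v).1 + (Z2 v).1)) * hK'
      + 2 * r * (ggs t t + ggt t t) * ((Z1 v).1 + (Z2 v).1) * hr2
  have : u 1 = 0 := by rw [hu]; rfl
  have h3 : u 1 = r := rfl
  linarith

/-- the Jacobian of the moment map -/
noncomputable def JJ (s t : ℝ) : ℝ :=
  (gg s t + s * ggs s t) * (gg t s + t * ggs t s) - (s * ggt s t) * (t * ggt t s)

lemma nondeg_of_JJ {p : R4} (hJ : JJ (nsq Z1 p) (nsq Z2 p) ≠ 0) (u : R4)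
    (hu : ∀ v : R4, omega p u v = 0) : u = 0 := by
  have e1 : ∀ w, fderiv ℝ g1 p w = _ := fun w => g_fderiv Z1 Z2 p w
  have e2 : ∀ w, fderiv ℝ g2 p w = _ := fun w => g_fderiv Z2 Z1 p w
  have hJ' : JJ (nsq Z1 p) (nsq Z2 p) ≠ 0 := hJ
  set s := nsq Z1 p with hs
  set t := nsq Z2 p with ht
  have hs2 : s = p 0 ^ 2 + p 1 ^ 2 := rfl
  have ht2 : t = p 2 ^ 2 + p 3 ^ 2 := rfl
  have hg1 : g1 p = gg s t := rfl
  have hg2 : g2 p = gg t s := rfl
  have hform : ∀ v : R4, 2 * gg s t * (u 0 * v 1 - u 1 * v 0)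
      + (ggs s t * (2 * (p 0 * u 0 + p 1 * u 1)) + ggt s t * (2 * (p 2 * u 2 + p 3 * u 3)))
        * (p 0 * v 1 - p 1 * v 0)
      - (ggs s t * (2 * (p 0 * v 0 + p 1 * v 1)) + ggt s t * (2 * (p 2 * v 2 + p 3 * v 3)))
        * (p 0 * u 1 - p 1 * u 0)
      + (2 * gg t s * (u 2 * v 3 - u 3 * v 2)
      + (ggs t s * (2 * (p 2 * u 2 + p 3 * u 3)) + ggt t s * (2 * (p 0 * u 0 + p 1 * u 1)))
        * (p 2 * v 3 - p 3 * v 2)
      - (ggs t s * (2 * (p 2 * v 2 + p 3 * v 3)) + ggt t s * (2 * (p 0 * v 0 + p 1 * v 1)))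
        * (p 2 * u 3 - p 3 * u 2)) = 0 := by
    intro v
    have h := hu v
    rw [omega_eq] at h
    unfold dform at h
    rw [e1, e1, e2, e2] at h
    unfold det2 at h
    simp only [Z1_apply, Z2_apply] at h
    rw [hg1, hg2] at h
    linarith
  unfold JJ at hJ'
  set X := p 0 * u 0 + p 1 * u 1 with hX
  set Y := p 2 * u 2 + p 3 * u 3 with hY
  set A := p 0 * u 1 - p 1 * u 0 with hA
  set B := p 2 * u 3 - p 3 * u 2 with hB
  have i1 : (gg s t + s * ggs s t) * X + s * ggt s t * Y = 0 := by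
    have h := hform ![-p 1, p 0, 0, 0]
    simp at h
    rw [hX, hY]
    rw [hs2] at h ⊢
    linarith
  have i2 : (gg t s + t * ggs t s) * Y + t * ggt t s * X = 0 := by
    have h := hform ![0, 0, -p 3, p 2]
    simp at h
    rw [hX, hY]
    rw [ht2] at h ⊢
    linarith
  have i3 : (gg s t + s * ggs s t) * A + s * ggt t s * B = 0 := by
    have h := hform ![p 0, p 1, 0, 0]
    simp at h
    rw [hA, hB]
    rw [hs2] at h ⊢
    linarith
  have i4 : (gg t s + t * ggs t s) * B + t * ggt s t * A = 0 := by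
    have h := hform ![0, 0, p 2, p 3]
    simp at h
    rw [hA, hB]
    rw [ht2] at h ⊢
    linarith
  have hX0 : X = 0 := by
    have : ((gg s t + s * ggs s t) * (gg t s + t * ggs t s) - (s * ggt s t) * (t * ggt t s)) * X
        = 0 := by linear_combination (gg t s + t * ggs t s) * i1 - (s * ggt s t) * i2
    exact (mul_eq_zero.mp this).resolve_left hJ'
  have hY0 : Y = 0 := by
    have : ((gg s t + s * ggs s t) * (gg t s + t * ggs t s) - (s * ggt s t) * (t * ggt t s)) * Y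
        = 0 := by linear_combination (gg s t + s * ggs s t) * i2 - (t * ggt t s) * i1
    exact (mul_eq_zero.mp this).resolve_left hJ'
  have hA0 : A = 0 := by
    have : ((gg s t + s * ggs s t) * (gg t s + t * ggs t s) - (s * ggt s t) * (t * ggt t s)) * A
        = 0 := by linear_combination (gg t s + t * ggs t s) * i3 - (s * ggt t s) * i4
    exact (mul_eq_zero.mp this).resolve_left hJ'
  have hB0 : B = 0 := by
    have : ((gg s t + s * ggs s t) * (gg t s + t * ggs t s) - (s * ggt s t) * (t * ggt t s)) * B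
        = 0 := by linear_combination (gg s t + s * ggs s t) * i4 - (t * ggt s t) * i3
    exact (mul_eq_zero.mp this).resolve_left hJ'
  rw [hX0, hY0, hA0, hB0] at hform
  -- first pair
  have h01 : s * u 0 = 0 ∧ s * u 1 = 0 := by
    constructor
    · rw [hs2]; linear_combination p 0 * (hX.symm.trans hX0) - p 1 * (hA.symm.trans hA0)
    · rw [hs2]; linear_combination p 1 * (hX.symm.trans hX0) + p 0 * (hA.symm.trans hA0)
  have h23 : t * u 2 = 0 ∧ t * u 3 = 0 := by
    constructor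
    · rw [ht2]; linear_combination p 2 * (hY.symm.trans hY0) - p 3 * (hB.symm.trans hB0)
    · rw [ht2]; linear_combination p 3 * (hY.symm.trans hY0) + p 2 * (hB.symm.trans hB0)
  have hu01 : u 0 = 0 ∧ u 1 = 0 := by
    by_cases hs0 : s = 0
    · have hg : gg s t ≠ 0 := by
        intro hg
        apply hJ'
        rw [hg, hs0]; ring
      have h := hform ![0, 1, 0, 0]
      have h' := hform ![1, 0, 0, 0]
      simp at h h'
      exact ⟨h.resolve_left hg, h'.resolve_left hg⟩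
    · exact ⟨(mul_eq_zero.mp h01.1).resolve_left hs0, (mul_eq_zero.mp h01.2).resolve_left hs0⟩
  have hu23 : u 2 = 0 ∧ u 3 = 0 := by
    by_cases ht0 : t = 0
    · have hg : gg t s ≠ 0 := by
        intro hg
        apply hJ'
        rw [hg, ht0]; ring
      have h := hform ![0, 0, 0, 1]
      have h' := hform ![0, 0, 1, 0]
      simp at h h'
      exact ⟨h.resolve_left hg, h'.resolve_left hg⟩
    · exact ⟨(mul_eq_zero.mp h23.1).resolve_left ht0, (mul_eq_zero.mp h23.2).resolve_left ht0⟩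
  funext i
  fin_cases i
  · exact hu01.1
  · exact hu01.2
  · exact hu23.1
  · exact hu23.2

lemma JJ_sphere {s : ℝ} (h0 : 0 ≤ s) (h1 : s ≤ Real.pi) : 0 < JJ s (Real.pi - s) := by
  have hpi := Real.pi_gt_three
  have hpi2 : Real.pi < 3.15 := Real.pi_lt_d2
  have hsin : 0 ≤ Real.sin s := Real.sin_nonneg_of_nonneg_of_le_pi h0 h1
  set c := Real.cos s with hc
  set n := Real.sin s with hn
  have hcn : c ^ 2 + n ^ 2 = 1 := by rw [hc, hn]; exact Real.cos_sq_add_sin_sq s
  have hval : JJ s (Real.pi - s) = (2 * Real.pi - 1) * (c - s * n) ^ 2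
      + (4 * s - 1) * (c - s * n) * (Real.pi * n) + 2 * s * (Real.pi * n) ^ 2 := by
    unfold JJ gg ggs ggt bb
    rw [Real.cos_pi_sub, Real.sin_pi_sub, ← hc, ← hn]
    ring
  rw [hval]
  set A := c - s * n with hA
  set K := Real.pi * n with hK
  have hK0 : 0 ≤ K := by positivity
  by_cases hcase : 1 / 16 < s * (Real.pi - s)
  · -- positive definite
    have hs0 : 0 < s := by
      rcases h0.eq_or_lt with h | h
      · rw [← h] at hcase; norm_num at hcase
      · exact h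
    have hs1 : 0 < Real.pi - s := by
      by_contra hcon
      push Not at hcon
      nlinarith
    have hn0 : 0 < n := Real.sin_pos_of_pos_of_lt_pi hs0 (by linarith)
    have hK1 : 0 < K := by positivity
    have hkey : 4 * (2 * Real.pi - 1) * ((2 * Real.pi - 1) * A ^ 2 + (4 * s - 1) * A * K
        + 2 * s * K ^ 2) = (2 * (2 * Real.pi - 1) * A + (4 * s - 1) * K) ^ 2
        + (16 * (s * (Real.pi - s)) - 1) * K ^ 2 := by ring
    have hpos : 0 < (2 * (2 * Real.pi - 1) * A + (4 * s - 1) * K) ^ 2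
        + (16 * (s * (Real.pi - s)) - 1) * K ^ 2 := by
      have h2 : 0 < (16 * (s * (Real.pi - s)) - 1) * K ^ 2 := by
        apply mul_pos _ (by positivity)
        linarith
      have h3 : 0 ≤ (2 * (2 * Real.pi - 1) * A + (4 * s - 1) * K) ^ 2 := sq_nonneg _
      linarith
    rw [← hkey] at hpos
    have h4 : 0 < 4 * (2 * Real.pi - 1) := by linarith
    exact (pos_iff_pos_of_mul_pos hpos).mp h4
  · push Not at hcase
    rcases le_or_gt s (Real.pi / 2) with hhalf | hhalf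
    · have hs24 : s ≤ 1 / 24 := by nlinarith
      have hns : n ≤ s := Real.sin_le h0
      have hc1 : c ≤ 1 := Real.cos_le_one s
      have hc2 : 1 - s ^ 2 / 2 ≤ c := Real.one_sub_sq_div_two_le_cos
      have hn24 : n ≤ 1 / 24 := by linarith
      have hsn : s * n ≤ 1 / 576 := by
        have := mul_le_mul hs24 hn24 hsin (by norm_num)
        norm_num at this ⊢
        linarith
      have hss : s ^ 2 ≤ 1 / 576 := by
        have := mul_le_mul hs24 hs24 h0 (by norm_num)
        norm_num at this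
        rw [sq]; linarith
      have hsn0 : 0 ≤ s * n := by positivity
      have hA1 : A ≤ 1 := by rw [hA]; linarith
      have hA2 : 0.99 ≤ A := by rw [hA]; norm_num; linarith
      have hK2 : K ≤ 0.14 := by
        have := mul_le_mul hpi2.le hn24 hsin (by norm_num)
        rw [hK]; norm_num at this ⊢; linarith
      have hAsq : 0.98 ≤ A ^ 2 := by
        have := mul_le_mul hA2 hA2 (by norm_num) (by linarith)
        norm_num at this
        have h2 : A ^ 2 = A * A := by ring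
        rw [h2]; norm_num; linarith
      have h5 : 4.9 ≤ (2 * Real.pi - 1) * A ^ 2 := by
        have h1 : (5 : ℝ) ≤ 2 * Real.pi - 1 := by linarith
        have := mul_le_mul h1 hAsq (by norm_num) (by linarith)
        norm_num at this ⊢
        linarith
      have h6 : -0.14 ≤ (4 * s - 1) * A * K := by
        have h7 : 0 ≤ A * K := mul_nonneg (by linarith) hK0
        have h8 : A * K ≤ 0.14 := by
          have := mul_le_mul hA1 hK2 hK0 (by norm_num)
          linarith
        have h9 : (4 * s - 1) * A * K = 4 * (s * (A * K)) - A * K := by ring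
        have h10 : 0 ≤ s * (A * K) := mul_nonneg h0 h7
        rw [h9]
        linarith
      have h9 : 0 ≤ 2 * s * K ^ 2 := by positivity
      linarith
    · set t := Real.pi - s with ht
      have ht0 : 0 ≤ t := by linarith
      have hst : s = Real.pi - t := by linarith
      have ht24 : t ≤ 1 / 24 := by nlinarith
      have hnt : n ≤ t := by
        have : n = Real.sin t := by rw [hn, ht, Real.sin_pi_sub]
        rw [this]; exact Real.sin_le ht0
      have hct : c = -Real.cos t := by rw [hc, hst, Real.cos_pi_sub]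
      have hc1 : Real.cos t ≤ 1 := Real.cos_le_one t
      have hc2 : 1 - t ^ 2 / 2 ≤ Real.cos t := Real.one_sub_sq_div_two_le_cos
      have hsn : s * n ≤ 0.14 := by
        have hn24 : n ≤ 1 / 24 := by linarith
        have h1' : s ≤ 3.15 := by linarith
        have := mul_le_mul h1' hn24 hsin (by norm_num)
        norm_num at this ⊢
        linarith
      have hsn0 : 0 ≤ s * n := by positivity
      have htt : t ^ 2 ≤ 1 / 576 := by
        have := mul_le_mul ht24 ht24 ht0 (by norm_num)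
        norm_num at this
        rw [sq]; linarith
      have hA1 : A ≤ -0.99 := by rw [hA, hct]; linarith
      have hA2 : -1.14 ≤ A := by rw [hA, hct]; linarith
      have hK2 : K ≤ 0.14 := by
        have hn24 : n ≤ 1 / 24 := by linarith
        have := mul_le_mul hpi2.le hn24 hsin (by norm_num)
        rw [hK]; norm_num at this; linarith
      have hAsq : 0.98 ≤ A ^ 2 := by
        have h1 : (0.99 : ℝ) ≤ -A := by linarith
        have := mul_le_mul h1 h1 (by norm_num) (by linarith)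
        norm_num at this
        have h2 : A ^ 2 = -A * -A := by ring
        rw [h2]; norm_num; linarith
      have h5 : 4.9 ≤ (2 * Real.pi - 1) * A ^ 2 := by
        have h1 : (5 : ℝ) ≤ 2 * Real.pi - 1 := by linarith
        have := mul_le_mul h1 hAsq (by norm_num) (by linarith)
        norm_num at this ⊢
        linarith
      have h6 : -2 ≤ (4 * s - 1) * A * K := by
        have h7 : 0 ≤ (-A) * K := mul_nonneg (by linarith) hK0
        have h8 : (-A) * K ≤ 0.16 := by
          have h1 : -A ≤ 1.14 := by linarith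
          have := mul_le_mul h1 hK2 hK0 (by norm_num)
          norm_num at this ⊢
          linarith
        have h9 : 0 ≤ 4 * s - 1 := by linarith
        have h10 : 4 * s - 1 ≤ 11.6 := by linarith
        have h11 : (4 * s - 1) * ((-A) * K) ≤ 11.6 * 0.16 :=
          mul_le_mul h10 h8 h7 (by norm_num)
        have h12 : (4 * s - 1) * A * K = -((4 * s - 1) * ((-A) * K)) := by ring
        rw [h12]
        norm_num at h11
        linarith
      have h9 : 0 ≤ 2 * s * K ^ 2 := by positivity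
      linarith

lemma JJ_continuous : Continuous (fun x : ℝ × ℝ => JJ x.1 x.2) := by
  unfold JJ ggs ggt
  have h1 : Continuous (fun x : ℝ × ℝ => gg x.1 x.2) := gg_contDiff.continuous
  have h2 : Continuous (fun x : ℝ × ℝ => gg x.2 x.1) :=
    h1.comp (continuous_snd.prodMk continuous_fst)
  have h3 : Continuous bb := bb_contDiff.continuous
  fun_prop

lemma nsq_nonneg (Z : R4 →L[ℝ] ℝ × ℝ) (p : R4) : 0 ≤ nsq Z p := by
  unfold nsq; positivity

/-- `ω` is nondegenerate on some shell -/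
lemma exists_nondegenerate_shell : ∃ ε : ℝ, 0 < ε ∧ NondegenerateOn (shell ε) := by
  have hcont : Continuous (fun x : ℝ × ℝ => JJ x.2 (Real.pi + x.1 - x.2)) :=
    Continuous.comp (g := fun x : ℝ × ℝ => JJ x.1 x.2)
      (f := fun x : ℝ × ℝ => (x.2, Real.pi + x.1 - x.2)) JJ_continuous (continuous_snd.prodMk
      ((continuous_const.add continuous_fst).sub continuous_snd))
  have hopen : IsOpen {x : ℝ × ℝ | 0 < JJ x.2 (Real.pi + x.1 - x.2)} :=
    isOpen_lt continuous_const hcont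
  have hsub : ({0} : Set ℝ) ×ˢ Icc 0 Real.pi ⊆
      {x : ℝ × ℝ | 0 < JJ x.2 (Real.pi + x.1 - x.2)} := by
    rintro ⟨x, y⟩ ⟨hx, hy⟩
    simp only [mem_singleton_iff] at hx
    subst hx
    simp only [mem_ofPred_eq, add_zero]
    exact JJ_sphere hy.1 hy.2
  obtain ⟨u, v, hu, hv, hsu, htv, huv⟩ :=
    generalized_tube_lemma isCompact_singleton isCompact_Icc hopen hsub
  obtain ⟨δ, hδ, hball⟩ := Metric.isOpen_iff.mp hu 0 (hsu rfl)
  -- `v` is an open neighbourhood of `[0, π]`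
  obtain ⟨η, hη, hthick⟩ := isCompact_Icc.exists_thickening_subset_open hv htv
  refine ⟨min δ η, lt_min hδ hη, ?_⟩
  intro p hp
  have hpf : |nsq Z1 p + nsq Z2 p - Real.pi| < min δ η := by
    have : |f p| < min δ η := hp
    rwa [f_eq] at this
  obtain ⟨hpδ, hpη⟩ := lt_min_iff.mp hpf
  apply nondeg_of_JJ
  have h1 : nsq Z1 p + nsq Z2 p - Real.pi ∈ u := hball (by
    rw [Metric.mem_ball, Real.dist_eq, sub_zero]; exact hpδ)
  have h2 : nsq Z1 p ∈ v := by
    apply hthick
    rw [Metric.mem_thickening_iff]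
    have hpi := Real.pi_pos
    have hn1 := nsq_nonneg Z1 p
    have hn2 := nsq_nonneg Z2 p
    rcases le_or_gt (nsq Z1 p) Real.pi with hle | hgt
    · exact ⟨nsq Z1 p, ⟨hn1, hle⟩, by rw [dist_self]; exact hη⟩
    · refine ⟨Real.pi, ⟨hpi.le, le_rfl⟩, ?_⟩
      rw [Real.dist_eq, abs_of_pos (by linarith)]
      have := (abs_lt.mp hpη).2
      linarith
  have h3 := huv (mk_mem_prod h1 h2)
  simp only [mem_ofPred_eq] at h3
  have h4 : Real.pi + (nsq Z1 p + nsq Z2 p - Real.pi) - nsq Z1 p = nsq Z2 p := by ring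
  rw [h4] at h3
  exact h3.ne'

lemma isOpen_shell (ε : ℝ) : IsOpen (shell ε) := by
  have h : Continuous f := by
    have : f = fun p => nsq Z1 p + nsq Z2 p - Real.pi := by funext p; exact f_eq p
    rw [this]
    exact ((nsq_contDiff Z1).continuous.add (nsq_contDiff Z2).continuous).sub continuous_const
  exact isOpen_lt h.abs continuous_const

/-- assemble a map to `ℝ⁴` from two maps to `ℝ²`, with the coordinates of each pair swapped -/
noncomputable def assemble (F G : R4 → ℝ × ℝ) (p : R4) : R4 :=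
  ![(F p).2, (F p).1, (G p).2, (G p).1]

lemma assemble_contDiffAt {F G : R4 → ℝ × ℝ} {p : R4} (hF : ContDiffAt ℝ ∞ F p)
    (hG : ContDiffAt ℝ ∞ G p) : ContDiffAt ℝ ∞ (assemble F G) p := by
  rw [contDiffAt_pi]
  intro i
  fin_cases i
  · exact contDiffAt_snd.comp p hF
  · exact contDiffAt_fst.comp p hF
  · exact contDiffAt_snd.comp p hG
  · exact contDiffAt_fst.comp p hG

lemma assemble_fderiv {F G : R4 → ℝ × ℝ} {p : R4} (hF : DifferentiableAt ℝ F p)
    (hG : DifferentiableAt ℝ G p) (u : R4) :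
    fderiv ℝ (assemble F G) p u = ![(fderiv ℝ F p u).2, (fderiv ℝ F p u).1,
      (fderiv ℝ G p u).2, (fderiv ℝ G p u).1] := by
  have h : HasFDerivAt (assemble F G) (ContinuousLinearMap.pi
      (![(ContinuousLinearMap.snd ℝ ℝ ℝ).comp (fderiv ℝ F p),
        (ContinuousLinearMap.fst ℝ ℝ ℝ).comp (fderiv ℝ F p),
        (ContinuousLinearMap.snd ℝ ℝ ℝ).comp (fderiv ℝ G p),
        (ContinuousLinearMap.fst ℝ ℝ ℝ).comp (fderiv ℝ G p)] :
          Fin 4 → (R4 →L[ℝ] ℝ))) p := by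
    rw [hasFDerivAt_pi]
    intro i
    fin_cases i
    · exact hasFDerivAt_snd.comp p hF.hasFDerivAt
    · exact hasFDerivAt_fst.comp p hF.hasFDerivAt
    · exact hasFDerivAt_snd.comp p hG.hasFDerivAt
    · exact hasFDerivAt_fst.comp p hG.hasFDerivAt
  rw [h.fderiv]
  funext i
  fin_cases i <;> rfl

/-- **Main theorem.** The form `ω` is nondegenerate on some shell, and for every `ε > 0` for which
`ω` is nondegenerate on the shell `U_ε` there is a map `ψ` which is a smooth immersion of the whole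
shell `U_ε` into `ℝ⁴` with `ψ^* ω₀ = ω`; in particular it restricts to such an immersion of
`V = U_ε` minus the radial segment through `x`, for every `x ∈ S³ \ L`. -/
theorem result :
    (∃ ε : ℝ, 0 < ε ∧ NondegenerateOn (shell ε)) ∧
    ∀ ε : ℝ, 0 < ε → NondegenerateOn (shell ε) →
      ∃ ψ : R4 → R4, IsSymplecticImmersionOn ψ (shell ε) ∧
        ∀ x ∈ sphere3 \ torusL, IsSymplecticImmersionOn ψ (V ε x) := by
  refine ⟨exists_nondegenerate_shell, ?_⟩
  intro ε hε hnd
  have hw := width_le hnd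
  obtain ⟨c, hc, hcut⟩ := exists_cut
  -- the scale
  set k := Real.sqrt (c / 8) with hk
  have hk0 : 0 < k := Real.sqrt_pos.mpr (by positivity)
  have hk2 : k ^ 2 = c / 8 := Real.sq_sqrt (by positivity)
  have hmem : ∀ p ∈ shell ε, |nsq Z1 p + nsq Z2 p - Real.pi| ≤ Real.pi / 3 := by
    intro p hp
    have h : |f p| < ε := hp
    rw [f_eq] at h
    linarith
  have hA1 : ∀ q ∈ shell ε, nsq Z1 q < c → 0 < g1 q := by
    intro q hq hqc
    have := hcut (nsq Z1 q) (nsq Z2 q) (nsq_nonneg _ _) (hmem q hq) hqc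
    unfold g1; linarith
  have hA2 : ∀ q ∈ shell ε, nsq Z2 q < c → 0 < g2 q := by
    intro q hq hqc
    have := hcut (nsq Z2 q) (nsq Z1 q) (nsq_nonneg _ _)
      (by rw [add_comm]; exact hmem q hq) hqc
    unfold g2; linarith
  have hB1 : ∀ q ∈ shell ε, c / 2 < nsq Z1 q → nsq Z1 q < c → k ^ 2 ≤ nsq Z1 q * g1 q := by
    intro q hq hq2 hqc
    have := hcut (nsq Z1 q) (nsq Z2 q) (nsq_nonneg _ _) (hmem q hq) hqc
    rw [hk2]; unfold g1; nlinarith
  have hB2 : ∀ q ∈ shell ε, c / 2 < nsq Z2 q → nsq Z2 q < c → k ^ 2 ≤ nsq Z2 q * g2 q := by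
    intro q hq hq2 hqc
    have := hcut (nsq Z2 q) (nsq Z1 q) (nsq_nonneg _ _)
      (by rw [add_comm]; exact hmem q hq) hqc
    rw [hk2]; unfold g2; nlinarith
  set F := psG Z1 g1 k c with hF
  set G := psG Z2 g2 k c with hG
  have hFs : ∀ p ∈ shell ε, _ := fun p hp =>
    psG_spec Z1 g1_contDiff hk0 hc (isOpen_shell ε) hA1 hB1 hp
  have hGs : ∀ p ∈ shell ε, _ := fun p hp =>
    psG_spec Z2 g2_contDiff hk0 hc (isOpen_shell ε) hA2 hB2 hp
  have hsm : ∀ p ∈ shell ε, ContDiffAt ℝ ∞ (assemble F G) p := fun p hp =>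
    assemble_contDiffAt (hFs p hp).1 (hGs p hp).1
  have hpull : ∀ p ∈ shell ε, ∀ u v : R4,
      omega0 (fderiv ℝ (assemble F G) p u) (fderiv ℝ (assemble F G) p v) = omega p u v := by
    intro p hp u v
    have hFd : DifferentiableAt ℝ F p := (hFs p hp).1.differentiableAt (by simp)
    have hGd : DifferentiableAt ℝ G p := (hGs p hp).1.differentiableAt (by simp)
    rw [assemble_fderiv hFd hGd, assemble_fderiv hFd hGd, omega_eq,
      ← (hFs p hp).2 u v, ← (hGs p hp).2 u v]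
    unfold omega0 det2
    simp
    ring
  have himm : ∀ p ∈ shell ε, Function.Injective (fderiv ℝ (assemble F G) p) := by
    intro p hp
    rw [injective_iff_map_eq_zero]
    intro u hu
    apply hnd p hp u
    intro v
    rw [← hpull p hp u v, hu]
    unfold omega0
    simp
  refine ⟨assemble F G, ⟨fun p hp => (hsm p hp).contDiffWithinAt, himm, hpull⟩, ?_⟩
  intro x _
  exact ⟨fun p hp => (hsm p hp.1).contDiffWithinAt, fun p hp => himm p hp.1,
    fun p hp => hpull p hp.1⟩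

end Pool.Agent.Results.MP_966fbb_gt.SymplecticImmersion
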